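import Mathlib
import Pool.Agent.H332R2.CastLem

/-!
# Kummer's logarithmic derivative, modulo `p`

If a polynomial congruence `c = ∏ P_a(X)^(a^j)` holds modulo `(X - 1)^(p-1)` over `ZMod p`, where
`P_a = 1 + X + ... + X^(a-1)` and `j + k = p - 1`, then `B_k / k! = 0` in `ZMod p`.
-/

set_option autoImplicit false

open Finset PowerSeries

namespace Pool.Agent.TH350.VD

open Pool.Agent.H332R2

variable {p : ℕ} [hp : Fact p.Prime]

/-- the derivative -/
noncomputable def dd (f : PowerSeries (ZMod p)) : PowerSeries (ZMod p) :=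
  PowerSeries.derivative (ZMod p) f

lemma coeff_dd (f : PowerSeries (ZMod p)) (n : ℕ) :
    coeff n (dd f) = coeff (n + 1) f * (n + 1) := by
  unfold dd; rw [coeff_derivative]

lemma dd_mul (f g : PowerSeries (ZMod p)) : dd (f * g) = f * dd g + g * dd f := by
  unfold dd; rw [Derivation.leibniz, smul_eq_mul, smul_eq_mul]

lemma dd_one : dd (1 : PowerSeries (ZMod p)) = 0 := by
  unfold dd; rw [Derivation.map_one_eq_zero]

lemma dd_sub (f g : PowerSeries (ZMod p)) : dd (f - g) = dd f - dd g := by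
  unfold dd; rw [map_sub]

lemma dd_add (f g : PowerSeries (ZMod p)) : dd (f + g) = dd f + dd g := by
  unfold dd; rw [map_add]

lemma dd_C (c : ZMod p) : dd (C c : PowerSeries (ZMod p)) = 0 := by
  ext n
  rw [coeff_dd, coeff_C, if_neg (by omega), zero_mul, map_zero]

lemma dd_X : dd (X : PowerSeries (ZMod p)) = 1 := by
  ext n
  rw [coeff_dd, coeff_X, coeff_one]
  rcases n with _ | n
  · simp
  · simp

/-- logarithmic derivative -/
noncomputable def LD (f : PowerSeries (ZMod p)) : PowerSeries (ZMod p) :=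
  dd f * f⁻¹

lemma LD_mul {f g : PowerSeries (ZMod p)} (hf : constantCoeff f ≠ 0) (hg : constantCoeff g ≠ 0) :
    LD (f * g) = LD f + LD g := by
  unfold LD
  rw [dd_mul, PowerSeries.mul_inv_rev]
  have h1 := PowerSeries.mul_inv_cancel f hf
  have h2 := PowerSeries.mul_inv_cancel g hg
  calc (f * dd g + g * dd f) * (g⁻¹ * f⁻¹)
      = (f * f⁻¹) * (dd g * g⁻¹) + (g * g⁻¹) * (dd f * f⁻¹) := by ring
    _ = _ := by rw [h1, h2]; ring

lemma LD_one : LD (1 : PowerSeries (ZMod p)) = 0 := by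
  unfold LD
  rw [dd_one, zero_mul]

lemma cc_pow_ne {f : PowerSeries (ZMod p)} (hf : constantCoeff f ≠ 0) (n : ℕ) :
    constantCoeff (f ^ n) ≠ 0 := by
  rw [map_pow]; exact pow_ne_zero _ hf

lemma LD_pow {f : PowerSeries (ZMod p)} (hf : constantCoeff f ≠ 0) (n : ℕ) :
    LD (f ^ n) = n • LD f := by
  induction n with
  | zero => rw [pow_zero, LD_one, zero_smul]
  | succ n ih => rw [pow_succ, LD_mul (cc_pow_ne hf n) hf, ih, succ_nsmul]

lemma LD_prod {ι : Type} (s : Finset ι) (f : ι → PowerSeries (ZMod p)) (e : ι → ℕ)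
    (hf : ∀ i ∈ s, constantCoeff (f i) ≠ 0) :
    constantCoeff (∏ i ∈ s, f i ^ e i) ≠ 0 ∧
      LD (∏ i ∈ s, f i ^ e i) = ∑ i ∈ s, e i • LD (f i) := by
  classical
  induction s using Finset.induction_on with
  | empty => simp [LD_one]
  | insert a s ha ih =>
    have h1 := ih (fun i hi => hf i (Finset.mem_insert_of_mem hi))
    have h2 := hf a (Finset.mem_insert_self a s)
    rw [Finset.prod_insert ha, Finset.sum_insert ha]
    refine ⟨?_, ?_⟩
    · rw [map_mul]; exact mul_ne_zero (cc_pow_ne h2 _) h1.1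
    · rw [LD_mul (cc_pow_ne h2 _) h1.1, LD_pow h2, h1.2]

/-- if `X^(n+1)` divides `h` then `X^n` divides its derivative -/
lemma dvd_deriv {n : ℕ} {h : PowerSeries (ZMod p)} (hd : (X : PowerSeries (ZMod p)) ^ (n + 1) ∣ h) :
    (X : PowerSeries (ZMod p)) ^ n ∣ dd h := by
  rw [X_pow_dvd_iff] at hd ⊢
  intro m hm
  rw [coeff_dd, hd (m + 1) (by omega), zero_mul]

lemma LD_congr {n : ℕ} {f g : PowerSeries (ZMod p)} (hf : constantCoeff f ≠ 0)
    (hg : constantCoeff g ≠ 0) (h : (X : PowerSeries (ZMod p)) ^ (n + 1) ∣ f - g) :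
    (X : PowerSeries (ZMod p)) ^ n ∣ LD f - LD g := by
  unfold LD
  have h1 := dvd_deriv h
  rw [dd_sub] at h1
  have h0 : (X : PowerSeries (ZMod p)) ^ n ∣ f - g := (pow_dvd_pow _ (Nat.le_succ n)).trans h
  have e1 := PowerSeries.mul_inv_cancel f hf
  have e2 := PowerSeries.mul_inv_cancel g hg
  have : dd f * f⁻¹ - dd g * g⁻¹ =
      (dd f - dd g) * f⁻¹ - (f - g) * (dd g * (f⁻¹ * g⁻¹)) := by
    have e3 : (f - g) * (dd g * (f⁻¹ * g⁻¹)) =
      (f * f⁻¹) * (dd g * g⁻¹) - (g * g⁻¹) * (dd g * f⁻¹) := by ring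
    rw [e3, e1, e2]; ring
  rw [this]
  exact dvd_sub (h1.mul_right _) (h0.mul_right _)

/-- truncated exponential -/
noncomputable def ex (p : ℕ) [Fact p.Prime] : PowerSeries (ZMod p) :=
  PowerSeries.mk fun n => (((n.factorial : ℕ) : ZMod p))⁻¹

/-- `(exp X - 1) / X` -/
noncomputable def q1 (p : ℕ) [Fact p.Prime] : PowerSeries (ZMod p) :=
  PowerSeries.mk fun n => ((((n + 1).factorial : ℕ) : ZMod p))⁻¹

lemma q1_const : constantCoeff (q1 p) ≠ 0 := by
  unfold q1
  rw [← coeff_zero_eq_constantCoeff_apply, coeff_mk]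
  simp

lemma ex_eq : ex p = 1 + X * q1 p := by
  ext n
  rcases n with _ | n
  · simp [ex, coeff_zero_eq_constantCoeff_apply]
  · rw [map_add, coeff_succ_X_mul, coeff_one, if_neg (by omega), zero_add]
    simp [ex, q1]

/-- `exp X ^ a = exp (a X)` modulo `X ^ p` -/
lemma ex_pow (a : ℕ) : (X : PowerSeries (ZMod p)) ^ p ∣ ex p ^ a - rescale (a : ZMod p) (ex p) := by
  induction a with
  | zero =>
    rw [X_pow_dvd_iff]
    intro m hm
    rw [pow_zero, map_sub, coeff_rescale, coeff_one]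
    rcases m with _ | m
    · simp [ex]
    · simp
  | succ a ih =>
    have h1 : (X : PowerSeries (ZMod p)) ^ p ∣
        rescale (a : ZMod p) (ex p) * ex p - rescale ((a + 1 : ℕ) : ZMod p) (ex p) := by
      rw [X_pow_dvd_iff]
      intro m hm
      rw [map_sub, coeff_mul, coeff_rescale, sub_eq_zero]
      have hmf := fact_ne_zero (p := p) (k := m) hm
      unfold ex
      simp only [coeff_rescale, coeff_mk]
      push_cast
      rw [add_pow, Finset.sum_mul, Finset.Nat.sum_antidiagonal_eq_sum_range_succ_mk]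
      refine Finset.sum_congr rfl fun i hi => ?_
      rw [Finset.mem_range] at hi
      have h2 := Nat.choose_mul_factorial_mul_factorial (n := m) (k := i) (by omega)
      have h3 : ((m.choose i : ℕ) : ZMod p) * ((i.factorial : ℕ) : ZMod p) *
          (((m - i).factorial : ℕ) : ZMod p) = ((m.factorial : ℕ) : ZMod p) := by
        exact_mod_cast congrArg (fun n : ℕ => (n : ZMod p)) h2
      have hi1 := fact_ne_zero (p := p) (k := i) (by omega)
      have hi2 := fact_ne_zero (p := p) (k := m - i) (by omega)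
      simp only [one_pow, mul_one]
      rw [← h3]
      have hch : ((m.choose i : ℕ) : ZMod p) ≠ 0 := by
        intro h0; rw [h0] at h3; simp at h3; exact hmf h3.symm
      field_simp
    have h2 : ex p ^ (a + 1) - rescale ((a + 1 : ℕ) : ZMod p) (ex p) =
        (ex p ^ a - rescale (a : ZMod p) (ex p)) * ex p +
        (rescale (a : ZMod p) (ex p) * ex p - rescale ((a + 1 : ℕ) : ZMod p) (ex p)) := by ring
    rw [h2]
    exact dvd_add (ih.mul_right _) h1

/-- `1 + e + ... + e^(a-1)` for `e = exp X` -/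
noncomputable def ww (p : ℕ) [Fact p.Prime] (a : ℕ) : PowerSeries (ZMod p) :=
  ∑ i ∈ range a, ex p ^ i

lemma ww_mul (a : ℕ) : ww p a * (X * q1 p) = ex p ^ a - 1 := by
  have h := geom_sum_mul (ex p) a
  rw [← h]
  unfold ww
  rw [ex_eq]; ring

lemma ex_const : constantCoeff (ex p) = 1 := by
  unfold ex
  rw [← coeff_zero_eq_constantCoeff_apply, coeff_mk]
  simp

lemma ww_const (a : ℕ) : constantCoeff (ww p a) = (a : ZMod p) := by
  unfold ww
  rw [map_sum]
  simp [ex_const]

lemma ww_ne {a : ℕ} (h1 : 0 < a) (h2 : a < p) : constantCoeff (ww p a) ≠ 0 := by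
  rw [ww_const]; exact nat_ne_zero h1 h2

lemma rescale_q1_const (a : ℕ) : constantCoeff (rescale (a : ZMod p) (q1 p)) ≠ 0 := by
  rw [← coeff_zero_eq_constantCoeff_apply, coeff_rescale, pow_zero, one_mul,
    coeff_zero_eq_constantCoeff_apply]
  exact q1_const

/-- `w_a q1 = a q1(a X)` modulo `X^(p-1)` -/
lemma ww_q1 (a : ℕ) : (X : PowerSeries (ZMod p)) ^ (p - 1) ∣
    ww p a * q1 p - (C (a : ZMod p)) * rescale (a : ZMod p) (q1 p) := by
  have hp1 : (X : PowerSeries (ZMod p)) ^ p = X * X ^ (p - 1) := by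
    rw [← pow_succ', Nat.sub_add_cancel hp.out.one_le]
  have h1 := ex_pow (p := p) a
  have h2 : ex p ^ a - rescale (a : ZMod p) (ex p) =
      X * (ww p a * q1 p - (C (a : ZMod p)) * rescale (a : ZMod p) (q1 p)) := by
    have h3 := ww_mul (p := p) a
    have h4 : rescale (a : ZMod p) (ex p) = 1 + (C (a : ZMod p)) * X * rescale (a : ZMod p) (q1 p) := by
      rw [ex_eq, map_add, map_one, map_mul, rescale_X]
    rw [h4]
    linear_combination -h3
  rw [h2, hp1] at h1
  exact (mul_dvd_mul_iff_left X_ne_zero).1 h1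

lemma deriv_rescale (a : ZMod p) (f : PowerSeries (ZMod p)) :
    dd (rescale a f) = C a * rescale a (dd f) := by
  ext n
  rw [coeff_dd, coeff_rescale, coeff_C_mul, coeff_rescale, coeff_dd]
  ring

lemma LD_C_mul {a : ZMod p} (ha : a ≠ 0) {f : PowerSeries (ZMod p)} (hf : constantCoeff f ≠ 0) :
    LD (C a * f) = LD f := by
  rw [LD_mul (by simpa using ha) hf]
  have : LD (C a : PowerSeries (ZMod p)) = 0 := by
    unfold LD
    rw [dd_C, zero_mul]
  rw [this, zero_add]

lemma rescale_inv {a : ZMod p} {f : PowerSeries (ZMod p)} (hf : constantCoeff f ≠ 0) :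
    (rescale a f)⁻¹ = rescale a f⁻¹ := by
  have h0 : constantCoeff (rescale a f) ≠ 0 := by
    rw [← coeff_zero_eq_constantCoeff_apply, coeff_rescale, pow_zero, one_mul,
      coeff_zero_eq_constantCoeff_apply]
    exact hf
  rw [PowerSeries.inv_eq_iff_mul_eq_one h0, ← map_mul, PowerSeries.inv_mul_cancel f hf, map_one]

lemma LD_rescale {a : ZMod p} {f : PowerSeries (ZMod p)} (hf : constantCoeff f ≠ 0) :
    LD (rescale a f) = C a * rescale a (LD f) := by
  unfold LD
  rw [deriv_rescale, rescale_inv hf, map_mul]; ring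

/-- coefficients of the logarithmic derivative of `w_a` -/
lemma LD_ww {a : ℕ} (h1 : 0 < a) (h2 : a < p) {n : ℕ} (hn : n + 2 < p) :
    coeff n (LD (ww p a)) = ((a : ZMod p) ^ (n + 1) - 1) * coeff n (LD (q1 p)) := by
  have ha := nat_ne_zero (p := p) h1 h2
  have e1 := ww_q1 (p := p) a
  have hp1 : p - 1 = (p - 2) + 1 := by omega
  rw [hp1] at e1
  have h3 := LD_congr (n := p - 2) (f := ww p a * q1 p)
    (g := (C (a : ZMod p)) * rescale (a : ZMod p) (q1 p))
    (by rw [map_mul]; exact mul_ne_zero (ww_ne h1 h2) q1_const)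
    (by rw [map_mul]; exact mul_ne_zero (by simpa using ha) (rescale_q1_const a)) e1
  rw [LD_mul (ww_ne h1 h2) q1_const, LD_C_mul ha (rescale_q1_const a), LD_rescale q1_const,
    X_pow_dvd_iff] at h3
  have h4 := h3 n (by omega)
  rw [map_sub, map_add, coeff_C_mul, coeff_rescale] at h4
  linear_combination h4

/-- `X * LD q1 = β + X - 1` modulo `X^(p-1)` -/
lemma LD_q1 {k : ℕ} (hk2 : 2 ≤ k) (hk : k + 2 ≤ p) : coeff (k - 1) (LD (q1 p)) = cc p k := by
  set β : PowerSeries (ZMod p) := PowerSeries.mk (cc p) with hβ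
  -- β q1 = 1 modulo X^(p-1)
  have h1 : (X : PowerSeries (ZMod p)) ^ (p - 1) ∣ β * q1 p - 1 := by
    rw [X_pow_dvd_iff]
    intro m hm
    rw [map_sub, coeff_mul, Finset.Nat.sum_antidiagonal_eq_sum_range_succ_mk, coeff_one, hβ]
    unfold q1
    simp only [coeff_mk]
    rcases m with _ | m
    · simp [cc_zero]
    · rw [if_neg (by omega), sub_zero]
      have h := cc_rec (p := p) (m := m + 2) (by omega) (by omega)
      rw [← h]
      refine Finset.sum_congr rfl fun i hi => ?_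
      rw [Finset.mem_range] at hi
      rw [show m + 1 - i + 1 = m + 2 - i by omega]
  -- differentiate `ex = 1 + X q1`
  have h2 : (X : PowerSeries (ZMod p)) ^ (p - 1) ∣ dd (ex p) - ex p := by
    rw [X_pow_dvd_iff]
    intro m hm
    rw [map_sub, coeff_dd]
    unfold ex
    rw [coeff_mk, coeff_mk, Nat.factorial_succ]
    have hm1 := fact_ne_zero (p := p) (k := m) (by omega)
    have hm2 := nat_ne_zero (p := p) (k := m + 1) (by omega) (by omega)
    push_cast at hm2 ⊢
    field_simp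
    ring
  have h3 : dd (ex p) = q1 p + X * dd (q1 p) := by
    rw [ex_eq, dd_add, dd_one, dd_mul]
    rw [dd_X]
    ring
  rw [h3, ex_eq] at h2
  have e1 := PowerSeries.mul_inv_cancel (q1 p) q1_const
  have h4 : (X : PowerSeries (ZMod p)) ^ (p - 1) ∣ X * LD (q1 p) - (β + X - 1) := by
    have : X * LD (q1 p) - (β + X - 1) =
        (q1 p + X * dd (q1 p) - (1 + X * q1 p)) * (q1 p)⁻¹ -
          (β * q1 p - 1) * (q1 p)⁻¹ := by
      unfold LD
      have e2 : (q1 p + X * dd (q1 p) - (1 + X * q1 p)) * (q1 p)⁻¹ -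
          (β * q1 p - 1) * (q1 p)⁻¹ = (q1 p * (q1 p)⁻¹) * (1 - X - β) +
            X * (dd (q1 p) * (q1 p)⁻¹) := by ring
      rw [e2, e1]; ring
    rw [this]
    exact dvd_sub (h2.mul_right _) (h1.mul_right _)
  rw [X_pow_dvd_iff] at h4
  have h5 := h4 k (by omega)
  obtain ⟨m, rfl⟩ : ∃ m, k = m + 1 := ⟨k - 1, by omega⟩
  rw [map_sub, coeff_succ_X_mul, map_sub, map_add, coeff_X, if_neg (by omega), coeff_one,
    if_neg (by omega), hβ, coeff_mk] at h5
  rw [Nat.add_sub_cancel]
  linear_combination h5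

/-- power sums modulo `p` -/
lemma sum_pow_Icc {i : ℕ} (h0 : 0 < i) (hi : i < p - 1) :
    ∑ a ∈ Icc 1 (p - 1), (a : ZMod p) ^ i = 0 := by
  have h1 := FiniteField.sum_pow_lt_card_sub_one (K := ZMod p) i (by rw [ZMod.card]; exact hi)
  rw [← h1]
  have hp0 : 0 < p := hp.out.pos
  have h2 : ∑ x : ZMod p, x ^ i = ∑ a ∈ range p, ((a : ℕ) : ZMod p) ^ i := by
    refine Finset.sum_bij' (fun x _ => x.val) (fun a _ => (a : ZMod p)) ?_ ?_ ?_ ?_ ?_
    · intro x _; rw [Finset.mem_range]; exact ZMod.val_lt x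
    · intro a _; exact Finset.mem_univ _
    · intro x _; exact ZMod.natCast_zmod_val x
    · intro a ha; rw [Finset.mem_range] at ha; exact ZMod.val_cast_of_lt ha
    · intro x _; rw [ZMod.natCast_zmod_val]
  rw [h2, Finset.range_eq_Ico, Finset.sum_eq_sum_Ico_succ_bot hp0, Nat.cast_zero, zero_pow h0.ne',
    zero_add]
  refine Finset.sum_congr ?_ fun _ _ => rfl
  ext a
  rw [Finset.mem_Icc, Finset.mem_Ico]; omega

lemma sum_pow_Icc_top : ∑ a ∈ Icc 1 (p - 1), (a : ZMod p) ^ (p - 1) = -1 := by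
  have h1 : ∀ a ∈ Icc 1 (p - 1), (a : ZMod p) ^ (p - 1) = 1 := by
    intro a ha
    rw [Finset.mem_Icc] at ha
    exact ZMod.pow_card_sub_one_eq_one (nat_ne_zero (by omega) (by omega))
  rw [Finset.sum_congr rfl h1, Finset.sum_const, Nat.card_Icc, Nat.add_sub_cancel, nsmul_eq_mul,
    mul_one, Nat.cast_sub hp.out.one_le, Nat.cast_one]
  simp

/-- the main computation, for power series -/
theorem main_ps {j k : ℕ} (hk2 : 2 ≤ k) (hj : 0 < j) (hjk : j + k = p - 1) (c : ZMod p)
    (h : (X : PowerSeries (ZMod p)) ^ (p - 1) ∣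
      C c - ∏ a ∈ Icc 1 (p - 1), ww p a ^ (a ^ j)) : cc p k = 0 := by
  have hw : ∀ a ∈ Icc 1 (p - 1), constantCoeff (ww p a) ≠ 0 := by
    intro a ha
    rw [Finset.mem_Icc] at ha
    exact ww_ne (by omega) (by omega)
  obtain ⟨h1, h2⟩ := LD_prod (Icc 1 (p - 1)) (fun a => ww p a) (fun a => a ^ j) hw
  have hp1 : p - 1 = (p - 2) + 1 := by omega
  set W := ∏ a ∈ Icc 1 (p - 1), ww p a ^ (a ^ j) with hW
  have h3 : (X : PowerSeries (ZMod p)) ^ (p - 2) ∣ LD W := by
    have h4 := h
    rw [hp1] at h4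
    have h5 := dvd_deriv h4
    rw [dd_sub, dd_C, zero_sub, dvd_neg] at h5
    exact h5.mul_right _
  rw [X_pow_dvd_iff] at h3
  have h4 := h3 (k - 1) (by omega)
  rw [h2, map_sum] at h4
  have h5 : ∀ a ∈ Icc 1 (p - 1), coeff (k - 1) ((a ^ j) • LD (ww p a)) =
      ((a : ZMod p) ^ (p - 1) - (a : ZMod p) ^ j) * cc p k := by
    intro a ha
    rw [Finset.mem_Icc] at ha
    rw [map_nsmul, LD_ww (by omega) (by omega) (by omega), LD_q1 hk2 (by omega), nsmul_eq_mul,
      show k - 1 + 1 = k by omega, ← hjk, pow_add]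
    push_cast
    ring
  rw [Finset.sum_congr rfl h5, ← Finset.sum_mul, Finset.sum_sub_distrib, sum_pow_Icc_top,
    sum_pow_Icc hj (by omega)] at h4
  simpa using h4

end Pool.Agent.TH350.VD
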