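import Mathlib
import Pool.Agent.TH350.VD.Log

/-!
# Kummer: if the cyclotomic unit `E_k` is a `p`-th power in `ℚ(ζ_p)` then `p` divides `B_k`
-/

set_option autoImplicit false

open Finset

namespace Pool.Agent.TH350.VD

open Pool.Agent.H332R2

/-- Kummer's cyclotomic unit
`E_k = ∏_{a=1}^{p-1} ((1 - ζ^a) / (1 - ζ)) ^ (a ^ (p - 1 - k))`, for a `p`-th root of unity `ζ`. -/
noncomputable def cycUnit {K : Type*} [Field K] (p k : ℕ) (ζ : K) : K :=
  ∏ a ∈ Icc 1 (p - 1), ((1 - ζ ^ a) / (1 - ζ)) ^ (a ^ (p - 1 - k))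

/-- `1 + X + ... + X^(a-1)` -/
noncomputable def PP (R : Type*) [CommRing R] (a : ℕ) : Polynomial R :=
  ∑ i ∈ range a, (Polynomial.X : Polynomial R) ^ i

/-- the product -/
noncomputable def WW (R : Type*) [CommRing R] (p j : ℕ) : Polynomial R :=
  ∏ a ∈ Icc 1 (p - 1), PP R a ^ (a ^ j)

lemma WW_map {R S : Type*} [CommRing R] [CommRing S] (f : R →+* S) (p j : ℕ) :
    (WW R p j).map f = WW S p j := by
  unfold WW PP
  rw [Polynomial.map_prod]
  refine Finset.prod_congr rfl fun a _ => ?_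
  rw [Polynomial.map_pow, Polynomial.map_sum]
  congr 1
  refine Finset.sum_congr rfl fun i _ => ?_
  rw [Polynomial.map_pow, Polynomial.map_X]

lemma WW_aeval {K : Type*} [Field K] {ζ : K} (hζ : ζ ≠ 1) (p k : ℕ) :
    Polynomial.aeval ζ (WW ℤ p (p - 1 - k)) = cycUnit p k ζ := by
  unfold WW PP cycUnit
  rw [map_prod]
  refine Finset.prod_congr rfl fun a _ => ?_
  rw [map_pow, map_sum]
  congr 1
  simp only [map_pow, Polynomial.aeval_X]
  rw [geom_sum_eq hζ, ← neg_sub (1 : K) (ζ ^ a), ← neg_sub (1 : K) ζ, neg_div_neg_eq]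

lemma cyclo_mod (p n : ℕ) [hp : Fact p.Prime] :
    Polynomial.cyclotomic (p ^ (n + 1)) (ZMod p) =
      (Polynomial.X - 1) ^ (p ^ (n + 1) - p ^ n) := by
  have h := Polynomial.cyclotomic_mul_prime_pow_eq (ZMod p) (p := p) (m := 1)
    (by intro h; exact hp.out.one_lt.ne' (Nat.dvd_one.1 h)) (k := n + 1) (Nat.succ_pos n)
  rw [mul_one, Polynomial.cyclotomic_one, Nat.add_sub_cancel] at h
  exact h

theorem kummer_cc {p k n : ℕ} [hp : Fact p.Prime] (hk2 : 2 ≤ k) (hk : k + 2 ≤ p)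
    {K : Type} [Field K] [CharZero K] [IsCyclotomicExtension {p ^ (n + 1)} ℚ K] {ζ : K}
    (hζ : IsPrimitiveRoot ζ (p ^ (n + 1))) {y : K} (hy : y ^ p = cycUnit p k ζ) :
    cc p k = 0 := by
  have hpn : 1 < p ^ (n + 1) := Nat.one_lt_pow (Nat.succ_ne_zero n) hp.out.one_lt
  have hpn0 : 0 < p ^ (n + 1) := by omega
  have hζ1 : ζ ≠ 1 := hζ.ne_one hpn
  have hint : IsIntegral ℤ ζ := hζ.isIntegral hpn0
  have hW : Polynomial.aeval ζ (WW ℤ p (p - 1 - k)) = y ^ p := by rw [hy, WW_aeval hζ1]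
  have hyp : IsIntegral ℤ (y ^ p) := by
    rw [← hW]
    have e : Polynomial.aeval ζ (WW ℤ p (p - 1 - k)) =
        ((Polynomial.aeval (⟨ζ, hint⟩ : integralClosure ℤ K) (WW ℤ p (p - 1 - k)) :
          integralClosure ℤ K) : K) := by
      rw [← Subalgebra.aeval_coe]
    rw [e]
    exact (Polynomial.aeval (⟨ζ, hint⟩ : integralClosure ℤ K) (WW ℤ p (p - 1 - k))).2
  have hyi : IsIntegral ℤ y := IsIntegral.of_pow hp.out.pos hyp
  have hcl := IsCyclotomicExtension.Rat.isIntegralClosure_adjoin_singleton_of_prime_pow hζ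
  obtain ⟨z, hz⟩ := hcl.isIntegral_iff.1 hyi
  have hz2 : y ∈ Algebra.adjoin ℤ ({ζ} : Set K) := by rw [← hz]; exact z.2
  rw [Algebra.adjoin_singleton_eq_range_aeval] at hz2
  obtain ⟨f, hf'⟩ := hz2
  replace hf' : Polynomial.aeval ζ f = y := hf'
  have h1 : Polynomial.aeval ζ (WW ℤ p (p - 1 - k) - f ^ p) = 0 := by
    rw [map_sub, map_pow, hW, hf', sub_self]
  have h2 := minpoly.isIntegrallyClosed_dvd hint h1
  rw [← Polynomial.cyclotomic_eq_minpoly hζ hpn0] at h2
  have h3 := Polynomial.map_dvd (Int.castRingHom (ZMod p)) h2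
  rw [Polynomial.map_cyclotomic, Polynomial.map_sub, Polynomial.map_pow, WW_map, cyclo_mod] at h3
  set g := f.map (Int.castRingHom (ZMod p)) with hg
  -- substitute the exponential
  have h4 := map_dvd (Polynomial.aeval (ex p) : Polynomial (ZMod p) →ₐ[ZMod p] PowerSeries (ZMod p)) h3
  rw [map_pow, map_sub, map_sub, map_pow, Polynomial.aeval_X, map_one] at h4
  have h5 : Polynomial.aeval (ex p) (WW (ZMod p) p (p - 1 - k)) =
      ∏ a ∈ Icc 1 (p - 1), ww p a ^ (a ^ (p - 1 - k)) := by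
    unfold WW PP ww
    rw [map_prod]
    refine Finset.prod_congr rfl fun a _ => ?_
    rw [map_pow, map_sum]
    simp only [map_pow, Polynomial.aeval_X]
  rw [h5] at h4
  set G : PowerSeries (ZMod p) := Polynomial.aeval (ex p) g with hG
  obtain ⟨H, hH⟩ : ∃ H, G = PowerSeries.C (PowerSeries.constantCoeff G) + PowerSeries.X * H := by
    have : (PowerSeries.X : PowerSeries (ZMod p)) ∣ G - PowerSeries.C (PowerSeries.constantCoeff G) := by
      rw [PowerSeries.X_dvd_iff]; simp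
    obtain ⟨H, hH⟩ := this
    exact ⟨H, by rw [← hH]; ring⟩
  have h6 : G ^ p = PowerSeries.C (PowerSeries.constantCoeff G) + PowerSeries.X ^ p * H ^ p := by
    have hcp : CharP (PowerSeries (ZMod p)) p :=
      charP_of_injective_ringHom (f := (PowerSeries.C : ZMod p →+* PowerSeries (ZMod p)))
        PowerSeries.C_injective p
    conv_lhs => rw [hH]
    rw [add_pow_char, mul_pow, ← map_pow, ZMod.pow_card]
  have h7 : (PowerSeries.X : PowerSeries (ZMod p)) ^ (p - 1) ∣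
      PowerSeries.C (PowerSeries.constantCoeff G) -
        ∏ a ∈ Icc 1 (p - 1), ww p a ^ (a ^ (p - 1 - k)) := by
    have h8 : (PowerSeries.X : PowerSeries (ZMod p)) ^ (p - 1) ∣
        (ex p - 1) ^ (p ^ (n + 1) - p ^ n) := by
      rw [ex_eq, add_sub_cancel_left, mul_pow]
      have h12 : p - 1 ≤ p ^ (n + 1) - p ^ n := by
        have h13 : p ^ (n + 1) - p ^ n = p ^ n * (p - 1) := by
          rw [pow_succ, Nat.mul_sub, mul_one]
        rw [h13]
        exact Nat.le_mul_of_pos_left _ (pow_pos hp.out.pos n)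
      exact (pow_dvd_pow _ h12).mul_right _
    have h9 := h8.trans h4
    have h10 : (PowerSeries.X : PowerSeries (ZMod p)) ^ (p - 1) ∣ PowerSeries.X ^ p * H ^ p :=
      (pow_dvd_pow _ (Nat.sub_le p 1)).mul_right _
    have h11 : PowerSeries.C (PowerSeries.constantCoeff G) -
        ∏ a ∈ Icc 1 (p - 1), ww p a ^ (a ^ (p - 1 - k)) =
        -(∏ a ∈ Icc 1 (p - 1), ww p a ^ (a ^ (p - 1 - k)) - G ^ p) - PowerSeries.X ^ p * H ^ p := by
      rw [h6]; ring
    rw [h11]
    exact dvd_sub ((dvd_neg).2 h9) h10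
  exact main_ps hk2 (by omega) (by omega) _ h7

/-- KUMMER: if `E_k` is a `p`-th power in the field of the `p^(n+1)`-th roots of unity then `p`
divides the numerator of `B_k` (`2 ≤ k ≤ p - 3`). -/
theorem kummer {p k n : ℕ} [hp : Fact p.Prime] (hk2 : 2 ≤ k) (hk : k + 3 ≤ p)
    {K : Type} [Field K] [CharZero K] [IsCyclotomicExtension {p ^ (n + 1)} ℚ K] {ζ : K}
    (hζ : IsPrimitiveRoot ζ (p ^ (n + 1))) {y : K} (hy : y ^ p = cycUnit p k ζ) :
    (p : ℤ) ∣ (bernoulli k).num :=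
  (cc_eq_zero_iff (by omega) (by omega)).1 (kummer_cc hk2 (by omega) hζ hy)

end Pool.Agent.TH350.VD
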