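import Mathlib
import Pool.Agent.TH350.VD.Kummer
import Pool.Agent.TH10.RP.Four
import Pool.Agent.TH350.RC.Main

/-!
# Sums of four indices whose cyclotomic unit is not a `p`-th power
-/

set_option autoImplicit false

open Finset

namespace Pool.Agent.TH350.VD

/-- from additive representations to the number of elements: if a decidable set `S` of natural
numbers containing `0` is such that every `N ≤ K` has at least `N ^ 2 / 60` representations as a sum
of four elements then `K ^ 3 ≤ 180 |S ∩ [0, K]| ^ 4`. -/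
theorem count_of_four (S : ℕ → Prop) [DecidablePred S] (K : ℕ)
    (h : ∀ N ≤ K, N ^ 2 ≤ 60 * ((Finset.Nat.antidiagonalTuple 4 N).filter
      (fun x : Fin 4 → ℕ => ∀ i, S (x i))).card) :
    K ^ 3 ≤ 180 * ((range (K + 1)).filter S).card ^ 4 := by
  have h1 : ∑ N ∈ range (K + 1), ((Finset.Nat.antidiagonalTuple 4 N).filter
      (fun x : Fin 4 → ℕ => ∀ i, S (x i))).card ≤ ((range (K + 1)).filter S).card ^ 4 := by
    have h2 : (((range (K + 1)).filter S).card) ^ 4 =
        (Fintype.piFinset (fun _ : Fin 4 => (range (K + 1)).filter S)).card := by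
      rw [Fintype.card_piFinset]; simp
    rw [h2, ← Finset.card_biUnion]
    · refine Finset.card_le_card ?_
      intro x hx
      rw [Finset.mem_biUnion] at hx
      obtain ⟨N, hN, hx⟩ := hx
      rw [Finset.mem_filter, Finset.Nat.mem_antidiagonalTuple] at hx
      rw [Finset.mem_range] at hN
      rw [Fintype.mem_piFinset]
      intro i
      rw [Finset.mem_filter, Finset.mem_range]
      refine ⟨?_, hx.2 i⟩
      have := Finset.single_le_sum (f := x) (fun j _ => Nat.zero_le _) (Finset.mem_univ i)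
      omega
    · intro N _ M _ hNM
      rw [Function.onFun, Finset.disjoint_left]
      intro x hx hy
      rw [Finset.mem_filter, Finset.Nat.mem_antidiagonalTuple] at hx hy
      exact hNM (hx.1.symm.trans hy.1)
  have h3 : K ^ 3 ≤ 3 * ∑ N ∈ range (K + 1), N ^ 2 := by
    clear h h1
    induction K with
    | zero => simp
    | succ K ih =>
      rw [Finset.sum_range_succ]
      have e1 : (K + 1) ^ 3 = K ^ 3 + 3 * K ^ 2 + 3 * K + 1 := by ring
      have e2 : (K + 1) ^ 2 = K ^ 2 + 2 * K + 1 := by ring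
      rw [e1, e2]
      omega
  have h4 : ∑ N ∈ range (K + 1), N ^ 2 ≤ 60 * ∑ N ∈ range (K + 1),
      ((Finset.Nat.antidiagonalTuple 4 N).filter (fun x : Fin 4 → ℕ => ∀ i, S (x i))).card := by
    rw [Finset.mul_sum]
    refine Finset.sum_le_sum fun N hN => ?_
    rw [Finset.mem_range] at hN
    exact h N (by omega)
  calc K ^ 3 ≤ _ := h3
    _ ≤ 3 * (60 * ((range (K + 1)).filter S).card ^ 4) := by
        gcongr
        exact h4.trans (by gcongr)
    _ = _ := by ring

/-- For some `n ≥ 1`, some field `K = ℚ(ζ)` of the `p^n`-th roots of unity and some primitive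
`p^n`-th root of unity `ζ` in `K` the element `E_k` formed with `ζ` is a `p`-th power in `K`. -/
def IsPow (p k : ℕ) : Prop :=
  ∃ (n : ℕ) (K : Type) (_ : Field K) (_ : CharZero K)
    (_ : IsCyclotomicExtension {p ^ (n + 1)} ℚ K) (ζ y : K),
    IsPrimitiveRoot ζ (p ^ (n + 1)) ∧ y ^ p = cycUnit p k ζ

lemma not_isPow {p m : ℕ} (hp : p.Prime) (hm : 1 ≤ m) (hk : 2 * m + 3 ≤ p)
    (h : ¬ ((p : ℤ) ∣ (bernoulli (2 * m)).num)) : ¬ IsPow p (2 * m) := by
  rintro ⟨n, K, _, _, _, ζ, y, hζ, hy⟩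
  have : Fact p.Prime := ⟨hp⟩
  exact h (kummer (n := n) (by omega) hk hζ hy)

open Classical in
theorem four_nonpowers : ∃ P : ℕ, ∀ p : ℕ, p.Prime → P ≤ p → ∀ N : ℕ, 2 * N + 3 ≤ p →
      N ^ 2 ≤ 60 * {x ∈ Finset.Nat.antidiagonalTuple 4 N |
        ∀ i, x i = 0 ∨ ¬ IsPow p (2 * x i)}.card := by
  obtain ⟨P, hP⟩ := Pool.Agent.TH10.RP.four_sums
  refine ⟨P, fun p hp hpP N hN => ?_⟩
  refine (hP p hp hpP N hN).trans (Nat.mul_le_mul_left _ (Finset.card_le_card ?_))
  intro x hx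
  unfold Pool.Agent.TH10.RP.four at hx
  rw [Finset.mem_filter] at hx ⊢
  refine ⟨hx.1, fun i => ?_⟩
  rcases Nat.eq_zero_or_pos (x i) with h0 | h0
  · exact Or.inl h0
  · right
    have h1 := hx.1
    rw [Finset.Nat.mem_antidiagonalTuple] at h1
    have h2 := Finset.single_le_sum (f := x) (fun j _ => Nat.zero_le _) (Finset.mem_univ i)
    exact not_isPow hp h0 (by omega) (hx.2 i)

open Classical in
theorem many_nonpowers : ∃ P : ℕ, ∀ p : ℕ, p.Prime → P ≤ p → ∀ N : ℕ, 2 * N + 3 ≤ p →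
      (N ^ 2 ≤ 60 * {x ∈ Finset.Nat.antidiagonalTuple 4 N |
        ∀ i, x i = 0 ∨ ¬ IsPow p (2 * x i)}.card) ∧
      N ^ 3 ≤ 180 * ({m ∈ Finset.Icc 1 N | ¬ IsPow p (2 * m)}.card + 1) ^ 4 := by
  obtain ⟨P, hP⟩ := four_nonpowers
  refine ⟨P, fun p hp hpP N hN => ⟨hP p hp hpP N hN, ?_⟩⟩
  have h1 := count_of_four (fun m => m = 0 ∨ ¬ IsPow p (2 * m)) N
    (fun M hM => hP p hp hpP M (by omega))
  refine h1.trans ?_
  gcongr
  have h2 : (range (N + 1)).filter (fun m => m = 0 ∨ ¬ IsPow p (2 * m)) ⊆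
      insert 0 ((Finset.Icc 1 N).filter (fun m => ¬ IsPow p (2 * m))) := by
    intro m hm
    rw [Finset.mem_filter, Finset.mem_range] at hm
    rw [Finset.mem_insert, Finset.mem_filter, Finset.mem_Icc]
    rcases Nat.eq_zero_or_pos m with h0 | h0
    · exact Or.inl h0
    · exact Or.inr ⟨⟨h0, by omega⟩, hm.2.resolve_left (by omega)⟩
  exact (Finset.card_le_card h2).trans (Finset.card_insert_le _ _)

open Classical in
/-- residue classes -/
theorem classes (p d : ℕ) (hp : p.Prime) (hd : 1 ≤ d) (hpd : d ^ Nat.totient (2 * d) < p)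
    (c : ℤ) (K : ℕ) (hK : 2 * K + 3 ≤ p) :
    K < 4 ^ (d - 1) * ({m ∈ Finset.Icc 1 K | ((m : ℕ) : ℤ) ≡ c [ZMOD d] ∧
      ¬ IsPow p (2 * m)}.card + 2) ^ 2 := by
  refine (Pool.Agent.TH350.RC.main p d hp hd hpd c K hK).trans_le ?_
  refine Nat.mul_le_mul_left _ (Nat.pow_le_pow_left (Nat.add_le_add_right
    (Finset.card_le_card ?_) 2) 2)
  intro m hm
  rw [Finset.mem_filter, Finset.mem_Icc] at hm ⊢
  exact ⟨hm.1, hm.2.1, not_isPow hp hm.1.1 (by omega) hm.2.2⟩

end Pool.Agent.TH350.VD
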